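import Pool.Agent.H98.DF.Hn

/-!
# Mapping tori of free groups of infinite rank

A class with the inheritance properties and the extension property which contains the mapping tori of the automorphisms of the free
groups of finite rank contains the mapping tori of the automorphisms of all free groups: `F(X) ⋊ ℤ` is the directed colimit of the
groups `HS φ S`, `S` the finite subsets of `X`.
-/

set_option autoImplicit false

namespace Pool.Agent.H98.DF

open FreeGroup (of)
open Pool.Agent.H98.FJ Pool.Agent.H10.DT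

variable {X : Type} (φ : MulAut (FreeGroup X))

/-- the maps between the approximations -/
def hm (S S' : Finset X) (h : S ⊆ S') : HS φ S →* HS φ S' :=
  liftH φ S (hb φ S') (ht φ S') fun y hy => ht_hb φ S' (Subgroup.subset_closure ⟨y, h hy, rfl⟩)

/-- the maps to the mapping torus -/
def hp (S : Finset X) : HS φ S →* MT φ := liftH φ S (ba φ) (ta φ) fun y _ => ta_ba φ (of y)

theorem hm_hb {S S' : Finset X} (h : S ⊆ S') (w : FreeGroup X) : hm φ S S' h (hb φ S w) = hb φ S' w :=
  liftH_hb φ S _ _ _ w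

theorem hm_ht {S S' : Finset X} (h : S ⊆ S') : hm φ S S' h (ht φ S) = ht φ S' := liftH_ht φ S _ _ _

theorem hp_hb (S : Finset X) (w : FreeGroup X) : hp φ S (hb φ S w) = ba φ w := liftH_hb φ S _ _ _ w

theorem hp_ht (S : Finset X) : hp φ S (ht φ S) = ta φ := liftH_ht φ S _ _ _

theorem hm_hm {S S' S'' : Finset X} (h : S ⊆ S') (h' : S' ⊆ S'') (h'' : S ⊆ S'') (x : HS φ S) :
    hm φ S' S'' h' (hm φ S S' h x) = hm φ S S'' h'' x := by
  have h1 : (hm φ S' S'' h').comp (hm φ S S' h) = hm φ S S'' h'' := hs_ext φ S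
    (fun w => by rw [MonoidHom.comp_apply, hm_hb, hm_hb, hm_hb]) (by rw [MonoidHom.comp_apply, hm_ht, hm_ht, hm_ht])
  exact DFunLike.congr_fun h1 x

theorem hm_id {S : Finset X} (h : S ⊆ S) (x : HS φ S) : hm φ S S h x = x := by
  have h1 : hm φ S S h = MonoidHom.id _ := hs_ext φ S (fun w => by rw [hm_hb, MonoidHom.id_apply])
    (by rw [hm_ht, MonoidHom.id_apply])
  exact DFunLike.congr_fun h1 x

theorem hp_hm {S S' : Finset X} (h : S ⊆ S') (x : HS φ S) : hp φ S' (hm φ S S' h x) = hp φ S x := by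
  have h1 : (hp φ S').comp (hm φ S S' h) = hp φ S := hs_ext φ S
    (fun w => by rw [MonoidHom.comp_apply, hm_hb, hp_hb, hp_hb]) (by rw [MonoidHom.comp_apply, hm_ht, hp_ht, hp_ht])
  exact DFunLike.congr_fun h1 x

theorem hm_surj {S S' : Finset X} (h : S ⊆ S') : Function.Surjective (hm φ S S' h) := by
  intro x
  induction x using HNNExtension.induction_on with
  | of g => exact ⟨hb φ S g, by rw [hm, liftH_hb]; rfl⟩
  | t => exact ⟨ht φ S, by rw [hm, liftH_ht]; rfl⟩
  | mul x y hx hy =>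
    obtain ⟨x', rfl⟩ := hx
    obtain ⟨y', rfl⟩ := hy
    exact ⟨x' * y', map_mul _ _ _⟩
  | inv x hx =>
    obtain ⟨x', rfl⟩ := hx
    exact ⟨x'⁻¹, map_inv _ _⟩

theorem hp_surj (S : Finset X) : Function.Surjective (hp φ S) := by
  intro x
  have h1 : x = ba φ x.left * SemidirectProduct.inr x.right := (SemidirectProduct.inl_left_mul_inr_right x).symm
  have h2 : (SemidirectProduct.inr x.right : MT φ) = ta φ ^ (Multiplicative.toAdd x.right) := by
    rw [ta, ← map_zpow]
    congr 1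
    rw [← ofAdd_zsmul]
    simp
  refine ⟨hb φ S x.left * ht φ S ^ (Multiplicative.toAdd x.right), ?_⟩
  rw [map_mul, map_zpow, hp_hb, hp_ht, ← h2]
  exact h1.symm

/-- the elements which die at some stage -/
def DD : Subgroup (HS φ (∅ : Finset X)) where
  carrier := {x | ∃ S : Finset X, hm φ ∅ S (Finset.empty_subset S) x = 1}
  one_mem' := ⟨∅, map_one _⟩
  mul_mem' := by
    classical
    rintro x y ⟨S, hS⟩ ⟨S', hS'⟩
    refine ⟨S ∪ S', ?_⟩
    rw [map_mul, ← hm_hm φ (Finset.empty_subset S) Finset.subset_union_left, hS, map_one, one_mul,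
      ← hm_hm φ (Finset.empty_subset S') Finset.subset_union_right, hS', map_one]
  inv_mem' := by
    rintro x ⟨S, hS⟩
    exact ⟨S, by rw [map_inv, hS, inv_one]⟩

instance DD_normal : (DD φ).Normal := by
  refine ⟨?_⟩
  rintro x ⟨S, hS⟩ y
  exact ⟨S, by rw [map_mul, map_mul, hS, mul_one, ← map_mul, mul_inv_cancel, map_one]⟩

theorem mem_DD {x : HS φ (∅ : Finset X)} (h : hp φ ∅ x = 1) : x ∈ DD φ := by
  let q := QuotientGroup.mk' (DD φ)
  have h1 : ∀ w, q (hb φ ∅ (φ w)) = q (ht φ ∅) * q (hb φ ∅ w) * (q (ht φ ∅))⁻¹ := by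
    have h2 : (q.comp (hb φ ∅)).comp φ.toMonoidHom =
        (MulAut.conj (q (ht φ ∅))).toMonoidHom.comp (q.comp (hb φ ∅)) := FreeGroup.ext_hom _ _ fun x => by
      change q (hb φ ∅ (φ (of x))) = q (ht φ ∅) * q (hb φ ∅ (of x)) * (q (ht φ ∅))⁻¹
      rw [← map_inv, ← map_mul, ← map_mul]
      refine QuotientGroup.eq.2 ?_
      refine ⟨{x}, ?_⟩
      rw [map_mul, map_inv, map_mul, map_mul, map_inv, hm, liftH_hb, liftH_hb, liftH_ht, inv_mul_eq_one,
        eq_mul_inv_iff_mul_eq]
      exact (ht_hb φ {x} (Subgroup.subset_closure ⟨x, by simp, rfl⟩)).symm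
    exact fun w => DFunLike.congr_fun h2 w
  let γ : MT φ →* (HS φ (∅ : Finset X)) ⧸ DD φ := liftZ (q.comp (hb φ ∅)) (q (ht φ ∅)) h1
  have h3 : γ.comp (hp φ ∅) = q := hs_ext φ ∅ (fun w => by
    change γ (hp φ ∅ (hb φ ∅ w)) = q (hb φ ∅ w)
    rw [hp, liftH_hb, liftZ_ba]
    rfl) (by
    change γ (hp φ ∅ (ht φ ∅)) = q (ht φ ∅)
    rw [hp, liftH_ht, liftZ_ta])
  have h4 : q x = 1 := by
    rw [← h3, MonoidHom.comp_apply, h, map_one]
  exact (QuotientGroup.eq_one_iff x).1 h4

theorem isColimit : IsColimit (fun S S' (h : S ≤ S') => hm φ S S' h) (fun S => hp φ S) where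
  nonempty := ⟨∅⟩
  directed S S' := by
    classical
    exact ⟨S ∪ S', Finset.subset_union_left, Finset.subset_union_right⟩
  map_id S h x := hm_id φ h x
  map_comp S S' S'' h h' h'' x := hm_hm φ h h' h'' x
  compat S S' h x := hp_hm φ h x
  surj y := ⟨∅, hp_surj φ ∅ y⟩
  ker S x hx := by
    classical
    obtain ⟨x, rfl⟩ := hm_surj φ (Finset.empty_subset S) x
    rw [hp_hm] at hx
    obtain ⟨S', hS'⟩ := mem_DD φ hx
    refine ⟨S ∪ S', Finset.subset_union_left, ?_⟩
    rw [hm_hm φ _ _ (Finset.empty_subset _), ← hm_hm φ (Finset.empty_subset S') Finset.subset_union_right, hS',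
      map_one]

/-- mapping tori of free groups of arbitrary rank -/
theorem freeByZ_of_fin {C : (G : Type) → [Group G] → Prop} (hC : Inherits C) (hE : Extension C) (hF : FinByZ C) :
    FreeByZ C := fun _ φ =>
  hC.colim _ _ _ _ _ (isColimit φ) fun S => hs_mem φ S hC hE hF

end Pool.Agent.H98.DF
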