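import Pool.Agent.H98.DF.Ns
import Pool.Agent.H37.FG.FreeFin

/-!
# Automorphisms of free groups on finite sets of letters

An automorphism of a free group agrees on a given finite set `S` of letters with an automorphism of the free group on a finite set
`Y` which contains `S`.
-/

set_option autoImplicit false

namespace Pool.Agent.H98.DF

open FreeGroup (of)

variable {X : Type}

/-- the inclusion of the free group on a set of letters -/
def inc (Y : Finset X) : FreeGroup Y →* FreeGroup X := FreeGroup.map Subtype.val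

theorem inc_of (Y : Finset X) (y : Y) : inc Y (of y) = of (y : X) := FreeGroup.map.of

theorem inc_inj (Y : Finset X) : Function.Injective (inc Y) := FreeGroup.map_injective Subtype.val_injective

theorem closure_le_range (Y : Finset X) : Subgroup.closure (of '' (Y : Set X)) ≤ (inc Y).range := by
  rw [Subgroup.closure_le]
  rintro _ ⟨y, hy, rfl⟩
  exact ⟨of ⟨y, hy⟩, inc_of _ _⟩

theorem range_le (Y : Finset X) : (inc Y).range ≤ Subgroup.closure (of '' (Y : Set X)) := by
  rintro _ ⟨w, rfl⟩
  induction w using FreeGroup.induction_on with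
  | C1 =>
    rw [map_one]
    exact one_mem _
  | of y =>
    rw [inc_of]
    exact Subgroup.subset_closure ⟨y, y.2, rfl⟩
  | inv_of y h =>
    rw [map_inv]
    exact inv_mem h
  | mul x y hx hy =>
    rw [map_mul]
    exact mul_mem hx hy

theorem exists_ext (φ : MulAut (FreeGroup X)) (S : Finset X) : ∃ (Y : Finset X) (Ψ : MulAut (FreeGroup Y)), S ⊆ Y ∧
    ∀ (y : Y), (y : X) ∈ S → inc Y (Ψ (of y)) = φ (of (y : X)) := by
  classical
  choose J hJ using fun x : X => Pool.Agent.H37.FG.free_fin_supp (φ (of x))
  obtain ⟨Y, hY⟩ : ∃ Y, Y = S ∪ S.biUnion J := ⟨_, rfl⟩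
  have hSY : S ⊆ Y := by
    rw [hY]
    exact Finset.subset_union_left
  have hr : ∀ x ∈ S, φ (of x) ∈ (inc Y).range := by
    intro x hx
    refine closure_le_range Y (Subgroup.closure_mono (Set.image_mono ?_) (hJ x))
    intro y hy
    rw [hY, Finset.coe_union]
    right
    rw [Finset.coe_biUnion]
    exact Set.mem_biUnion (by exact hx) hy
  obtain ⟨E, e, he⟩ := exists_basis ((inc Y).range.comap φ.toMonoidHom)
  have hL : ∀ x ∈ S, ∃ i : E, (e (of i) : FreeGroup X) = of x := fun x hx => he x (hr x hx)
  -- the isomorphism with the free group on `Y`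
  let a : (inc Y).range.comap φ.toMonoidHom →* (inc Y).range := φ.toMonoidHom.subgroupComap (inc Y).range
  have ha : Function.Bijective a := by
    constructor
    · intro u v huv
      exact Subtype.ext (φ.injective (congrArg Subtype.val huv))
    · rintro ⟨v, hv⟩
      refine ⟨⟨φ.symm v, ?_⟩, Subtype.ext (φ.apply_symm_apply v)⟩
      change φ (φ.symm v) ∈ (inc Y).range
      rw [φ.apply_symm_apply]
      exact hv
  let η : FreeGroup E ≃* FreeGroup Y := (e.trans (MulEquiv.ofBijective a ha)).trans
    (MonoidHom.ofInjective (inc_inj Y)).symm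
  have hη : ∀ w, inc Y (η w) = φ (e w) := by
    intro w
    have h1 := MulEquiv.apply_symm_apply (MonoidHom.ofInjective (inc_inj Y)) (a (e w))
    exact congrArg Subtype.val h1
  have eq : E ≃ Y := Equiv.ofFreeGroupEquiv η
  have hfin : Finite E := Finite.of_equiv _ eq.symm
  have := Fintype.ofFinite E
  have hL' : ∀ y : Y, ∃ i : E, (y : X) ∈ S → (e (of i) : FreeGroup X) = of (y : X) := fun y => by
    by_cases hy : (y : X) ∈ S
    · obtain ⟨i, hi⟩ := hL y hy
      exact ⟨i, fun _ => hi⟩
    · exact ⟨eq.symm y, fun h => (hy h).elim⟩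
  choose i hi using hL'
  obtain ⟨g, hg⟩ := Set.MapsTo.exists_equiv_extend_of_card_eq (α := Y) (β := E) (t := Finset.univ)
    (by rw [Finset.card_univ]; exact Fintype.card_congr eq.symm) (s := {y : Y | (y : X) ∈ S}) (f := fun y => i y)
    (fun y _ => Finset.mem_coe.2 (Finset.mem_univ _)) (by
      intro y hy z hz hyz
      have h1 := hi y hy
      have h2 := hi z hz
      have hyz' : i y = i z := hyz
      rw [hyz', h2] at h1
      exact Subtype.ext (FreeGroup.of_injective h1).symm)
  let θ : Y ≃ E := g.trans (Equiv.subtypeUnivEquiv fun x => Finset.mem_univ x)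
  refine ⟨Y, (FreeGroup.freeGroupCongr θ).trans η, hSY, fun y hy => ?_⟩
  change inc Y (η (FreeGroup.freeGroupCongr θ (of y))) = φ (of (y : X))
  rw [hη]
  have h1 : FreeGroup.freeGroupCongr θ (of y) = of (i y) := by
    rw [FreeGroup.freeGroupCongr_apply, FreeGroup.map.of]
    congr 1
    exact hg y hy
  rw [h1, hi y hy]

end Pool.Agent.H98.DF
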