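import Pool.Agent.H98.DF.Pc
import Pool.Agent.H52.DT.Clo

/-!
# The approximations

`HS φ S` is the HNN extension of the free group on `X` for the isomorphism between the subgroup generated by `S` and its image
under `φ`. It is in the class for finite `S`.
-/

set_option autoImplicit false

namespace Pool.Agent.H98.DF

open FreeGroup (of)
open Pool.Agent.H98.FJ

variable {X : Type} (φ : MulAut (FreeGroup X)) (S : Finset X)

/-- the subgroup generated by a set of letters -/
def AS : Subgroup (FreeGroup X) := Subgroup.closure (of '' (S : Set X))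

/-- the approximation -/
abbrev HS : Type := HNNExtension (FreeGroup X) (AS S) ((AS S).map φ.toMonoidHom) (φ.subgroupMap (AS S))

/-- the base -/
def hb : FreeGroup X →* HS φ S := HNNExtension.of

/-- the stable letter -/
def ht : HS φ S := HNNExtension.t

theorem ht_hb {a : FreeGroup X} (ha : a ∈ AS S) : ht φ S * hb φ S a = hb φ S (φ a) * ht φ S :=
  HNNExtension.t_mul_of (φ := φ.subgroupMap (AS S)) ⟨a, ha⟩

variable {H : Type} [Group H]

/-- homomorphisms from the approximation -/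
def liftH (f : FreeGroup X →* H) (x : H) (hx : ∀ y ∈ S, x * f (of y) = f (φ (of y)) * x) : HS φ S →* H :=
  HNNExtension.lift f x fun a => by
    have h1 : AS S ≤ (MonoidHom.eqLocus ((MulAut.conj x).toMonoidHom.comp f) (f.comp φ.toMonoidHom)) := by
      rw [AS, Subgroup.closure_le]
      rintro _ ⟨y, hy, rfl⟩
      change x * f (of y) * x⁻¹ = f (φ (of y))
      rw [hx y hy, mul_inv_cancel_right]
    have h2 : x * f a * x⁻¹ = f (φ a) := h1 a.2
    rw [mul_inv_eq_iff_eq_mul] at h2
    exact h2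

@[simp]
theorem liftH_hb (f : FreeGroup X →* H) (x : H) (hx : ∀ y ∈ S, x * f (of y) = f (φ (of y)) * x) (w : FreeGroup X) :
    liftH φ S f x hx (hb φ S w) = f w := HNNExtension.lift_of _ _ _ _

@[simp]
theorem liftH_ht (f : FreeGroup X →* H) (x : H) (hx : ∀ y ∈ S, x * f (of y) = f (φ (of y)) * x) :
    liftH φ S f x hx (ht φ S) = x := HNNExtension.lift_t _ _ _

theorem hs_ext {f g : HS φ S →* H} (h1 : ∀ w, f (hb φ S w) = g (hb φ S w)) (h2 : f (ht φ S) = g (ht φ S)) : f = g :=
  HNNExtension.hom_ext (MonoidHom.ext h1) h2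

theorem hb_inj : Function.Injective (hb φ S) := HNNExtension.of_injective _

open Pool.Agent.H52.DT (PF)

/-- the homomorphisms from the free group to the factors of the amalgam -/
def ps (P : Type) [Group P] (j : FreeGroup X →* P) : ∀ b : Bool, FreeGroup X →* PF (HS φ S) P b
  | true => hb φ S
  | false => j

variable {C : (G : Type) → [Group G] → Prop} (hC : Inherits C) (hE : Extension C) (hF : FinByZ C)
include hC hE hF

/-- the approximations are in the class -/
theorem hs_mem : C (HS φ S) := by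
  classical
  obtain ⟨Y, Ψ, hSY, hΨ⟩ := exists_ext φ S
  have hP : C (MT (exA Y Ψ)) := mt_ext_mem hC hE hF Y Ψ
  have hag : ∀ a ∈ AS S, exA Y Ψ a = φ a := by
    have h1 : AS S ≤ (MonoidHom.eqLocus (exA Y Ψ).toMonoidHom φ.toMonoidHom) := by
      rw [AS, Subgroup.closure_le]
      rintro _ ⟨y, hy, rfl⟩
      change exA Y Ψ (of y) = φ (of y)
      have h2 : (of y : FreeGroup X) = inc Y (of ⟨y, hSY hy⟩) := (inc_of Y ⟨y, hSY hy⟩).symm
      rw [h2, exA_inc, hΨ ⟨y, hSY hy⟩ hy, inc_of]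
    exact fun a ha => h1 ha
  obtain ⟨D, hD⟩ : ∃ D, D = (AS S).map (ba (exA Y Ψ)) := ⟨_, rfl⟩
  have hQ : C (QQ Unit D) := qq_mem hC hE hP
  -- the homomorphism to the semidirect product
  let j : HS φ S →* QQ Unit D := liftH φ S (iP.comp (ba (exA Y Ψ))) (iP (ta _) * le () 1) fun y hy => by
    change iP (ta _) * le () 1 * iP (ba (exA Y Ψ) (of y)) = iP (ba (exA Y Ψ) (φ (of y))) * (iP (ta _) * le () 1)
    have hy' : of y ∈ AS S := Subgroup.subset_closure ⟨y, hy, rfl⟩
    have h1 : iP (ba (exA Y Ψ) (of y)) * le () 1 = le () 1 * (iP (ba (exA Y Ψ) (of y)) : QQ Unit D) := by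
      rw [iP_le]
      congr 1
      refine le_eq ?_
      rw [mul_one, mul_one, hD, ← map_inv]
      exact ⟨_, inv_mem hy', rfl⟩
    rw [mul_assoc, ← h1, ← mul_assoc, ← map_mul, ta_ba, hag _ hy', map_mul, mul_assoc]
  -- the amalgam
  let PO : Type := Monoid.PushoutI (ps φ S (MT (exA Y Ψ)) (ba (exA Y Ψ)))
  let o1 : HS φ S →* PO := Monoid.PushoutI.of (φ := ps φ S (MT (exA Y Ψ)) (ba (exA Y Ψ))) true
  let o2 : MT (exA Y Ψ) →* PO := Monoid.PushoutI.of (φ := ps φ S (MT (exA Y Ψ)) (ba (exA Y Ψ))) false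
  have ho : ∀ w, o1 (hb φ S w) = o2 (ba _ w) := fun w =>
    (Monoid.PushoutI.of_apply_eq_base (ps φ S (MT (exA Y Ψ)) (ba (exA Y Ψ))) true w).trans
      (Monoid.PushoutI.of_apply_eq_base (ps φ S (MT (exA Y Ψ)) (ba (exA Y Ψ))) false w).symm
  have hinj : Function.Injective o1 := by
    refine Monoid.PushoutI.of_injective (φ := ps φ S (MT (exA Y Ψ)) (ba (exA Y Ψ))) ?_ true
    intro b
    cases b
    · exact ba_inj _
    · exact hb_inj φ S
  -- the homomorphism back
  let bk : QQ Unit D →* PO := liftQ o2 (fun _ => (o2 (ta _))⁻¹ * o1 (ht φ S)) (by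
    intro _ d hd
    rw [hD] at hd
    obtain ⟨a, ha, rfl⟩ := hd
    have h1 := congrArg o1 (ht_hb φ S ha)
    rw [map_mul, map_mul, ho, ho] at h1
    have h2 := congrArg o2 (ta_ba (exA Y Ψ) a)
    rw [map_mul, map_mul, hag a ha] at h2
    change (o2 (ta _))⁻¹ * o1 (ht φ S) * o2 (ba _ a) = o2 (ba _ a) * ((o2 (ta _))⁻¹ * o1 (ht φ S))
    rw [mul_assoc, h1, ← mul_assoc, ← mul_assoc]
    congr 1
    rw [inv_mul_eq_iff_eq_mul, ← mul_assoc, h2, mul_inv_cancel_right])
  have h1 : bk.comp j = o1 := by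
    refine hs_ext φ S (fun w => ?_) ?_
    · change bk (j (hb φ S w)) = o1 (hb φ S w)
      rw [liftH_hb, ho]
      exact liftQ_iP _ _ _ _
    · change bk (j (ht φ S)) = o1 (ht φ S)
      rw [liftH_ht, map_mul]
      have h2 : bk (iP (ta _)) = o2 (ta _) := liftQ_iP _ _ _ _
      have h3 : bk (le () 1) = o2 1 * ((o2 (ta _))⁻¹ * o1 (ht φ S)) * (o2 1)⁻¹ := liftQ_le _ _ _ _ _
      rw [h2, h3, map_one, one_mul, inv_one, mul_one, mul_inv_cancel_left]
  refine hC.of_injective j ?_ hQ
  intro x y hxy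
  have h2 := congrArg bk hxy
  have h3 : ∀ z, bk (j z) = o1 z := fun z => DFunLike.congr_fun h1 z
  rw [h3, h3] at h2
  exact hinj h2

end Pool.Agent.H98.DF
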