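import Mathlib

/-!
# Schreier bases containing given letters

A subgroup `L` of the free group on `X` has a basis which contains all the letters `of x` which are in `L`.

Proof. `Ω` is the set of the cosets, `r ω` the products along the paths of a spanning tree of the graph of the cosets,
`gm x ω = (r (x ω))⁻¹ * x * r ω`. The `gm x ω` which are not `1` are a basis: for a function `g` on the pairs with `g x ω = 1` for
`gm x ω = 1` the free group acts on `Ω × G` by `x (ω, k) = (x ω, g x ω * k)`.
-/

set_option autoImplicit false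

namespace Pool.Agent.H98.DF

open FreeGroup (of)

variable {X : Type} (L : Subgroup (FreeGroup X))

/-- the letters and their inverses -/
def ltr (p : X × Bool) : FreeGroup X := if p.2 then of p.1 else (of p.1)⁻¹

/-- the base point -/
def om0 : FreeGroup X ⧸ L := QuotientGroup.mk 1

theorem smul_om0 (u : FreeGroup X) : u • om0 L = QuotientGroup.mk u := by
  rw [om0, ← mul_one u]
  simp

theorem smul_om0_eq (u : FreeGroup X) : u • om0 L = om0 L ↔ u ∈ L := by
  rw [smul_om0, om0, eq_comm, QuotientGroup.eq]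
  simp

/-- vertices at distance at most `n` -/
def Rch : ℕ → (FreeGroup X ⧸ L) → Prop
  | 0, w => w = om0 L
  | n + 1, w => ∃ (p : X × Bool) (w' : FreeGroup X ⧸ L), Rch n w' ∧ ltr p • w' = w

theorem rch_all (w : FreeGroup X ⧸ L) : ∃ n, Rch L n w := by
  obtain ⟨u, rfl⟩ := QuotientGroup.mk_surjective w
  rw [← smul_om0]
  have h1 : ∀ (u : FreeGroup X) (w : FreeGroup X ⧸ L) (n : ℕ), Rch L n w → ∃ m, Rch L m (u • w) := by
    intro u
    induction u using FreeGroup.induction_on with
    | C1 => exact fun w n h => ⟨n, by rwa [one_smul]⟩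
    | of x => exact fun w n h => ⟨n + 1, (x, true), w, h, rfl⟩
    | inv_of x _ => exact fun w n h => ⟨n + 1, (x, false), w, h, rfl⟩
    | mul x y hx hy =>
      intro w n h
      obtain ⟨m, hm⟩ := hy w n h
      rw [mul_smul]
      exact hx _ m hm
  exact h1 u _ 0 rfl

open Classical in
/-- the distance from the base point -/
noncomputable def dst (w : FreeGroup X ⧸ L) : ℕ := Nat.find (rch_all L w)

theorem parent {w : FreeGroup X ⧸ L} (h : w ≠ om0 L) : ∃ q : (X × Bool) × (FreeGroup X ⧸ L),
    dst L q.2 < dst L w ∧ ltr q.1 • q.2 = w := by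
  classical
  have h1 : Rch L (dst L w) w := Nat.find_spec (rch_all L w)
  cases hd : dst L w with
  | zero =>
    rw [hd] at h1
    exact (h h1).elim
  | succ n =>
    rw [hd] at h1
    obtain ⟨p, w', h2, h3⟩ := h1
    exact ⟨(p, w'), Nat.lt_succ_of_le (Nat.find_min' _ h2), h3⟩

open Classical in
/-- the products along the paths of the tree -/
noncomputable def rr (w : FreeGroup X ⧸ L) : FreeGroup X :=
  if h : w = om0 L then 1 else ltr (parent L h).choose.1 * rr (parent L h).choose.2
termination_by dst L w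
decreasing_by exact (parent L h).choose_spec.1

theorem rr_om0 : rr L (om0 L) = 1 := by
  rw [rr, dif_pos rfl]

theorem rr_step {w : FreeGroup X ⧸ L} (h : w ≠ om0 L) : ∃ (p : X × Bool) (w' : FreeGroup X ⧸ L),
    dst L w' < dst L w ∧ ltr p • w' = w ∧ rr L w = ltr p * rr L w' :=
  ⟨(parent L h).choose.1, (parent L h).choose.2, (parent L h).choose_spec.1, (parent L h).choose_spec.2, by
    rw [rr, dif_neg h]⟩

/-- induction along the tree -/
theorem tree_induction {P : (FreeGroup X ⧸ L) → Prop} (h0 : P (om0 L))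
    (h1 : ∀ (p : X × Bool) (w : FreeGroup X ⧸ L), P w → rr L (ltr p • w) = ltr p * rr L w → P (ltr p • w))
    (w : FreeGroup X ⧸ L) : P w := by
  have h2 : ∀ n, ∀ w, dst L w = n → P w := by
    intro n
    induction n using Nat.strong_induction_on with
    | _ n ih =>
      intro w hw
      by_cases h : w = om0 L
      · rw [h]
        exact h0
      · obtain ⟨p, w', h3, h4, h5⟩ := rr_step L h
        rw [← h4] at h5 ⊢
        exact h1 p w' (ih _ (by omega) w' rfl) h5
  exact h2 _ w rfl

theorem rr_smul (w : FreeGroup X ⧸ L) : rr L w • om0 L = w := by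
  induction w using tree_induction L with
  | h0 => rw [rr_om0, one_smul]
  | h1 p w ih h => rw [h, mul_smul, ih]

/-- the generators of the subgroup -/
noncomputable def gm (x : X) (w : FreeGroup X ⧸ L) : FreeGroup X := (rr L (of x • w))⁻¹ * of x * rr L w

theorem gm_mem (x : X) (w : FreeGroup X ⧸ L) : gm L x w ∈ L := by
  rw [← smul_om0_eq, gm, mul_smul, mul_smul, rr_smul, inv_smul_eq_iff, rr_smul]

section Coc

variable {G : Type} [Group G] (g : X → (FreeGroup X ⧸ L) → G)

/-- the action of a letter on the product -/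
noncomputable def pm (x : X) : Equiv.Perm ((FreeGroup X ⧸ L) × G) where
  toFun q := (of x • q.1, g x q.1 * q.2)
  invFun q := ((of x)⁻¹ • q.1, (g x ((of x)⁻¹ • q.1))⁻¹ * q.2)
  left_inv q := by simp
  right_inv q := by simp

/-- the action on the product -/
noncomputable def ac : FreeGroup X →* Equiv.Perm ((FreeGroup X ⧸ L) × G) := FreeGroup.lift (pm L g)

/-- the cocycle -/
noncomputable def cc (u : FreeGroup X) (w : FreeGroup X ⧸ L) : G := (ac L g u (w, 1)).2

theorem ac_apply (u : FreeGroup X) (w : FreeGroup X ⧸ L) (k : G) : ac L g u (w, k) = (u • w, cc L g u w * k) := by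
  induction u using FreeGroup.induction_on generalizing w k with
  | C1 => simp [cc]
  | of x => simp [cc, ac, pm]
  | inv_of x _ => simp [cc, ac, pm, Equiv.Perm.inv_def]
  | mul x y hx hy =>
    rw [cc, map_mul, Equiv.Perm.mul_apply, Equiv.Perm.mul_apply, hy w k, hx, hy w 1, hx, mul_smul]
    simp [mul_assoc]

theorem cc_mul (u v : FreeGroup X) (w : FreeGroup X ⧸ L) : cc L g (u * v) w = cc L g u (v • w) * cc L g v w := by
  have h1 : ac L g (u * v) (w, 1) = ac L g u (ac L g v (w, 1)) := by rw [map_mul, Equiv.Perm.mul_apply]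
  rw [cc, h1, ac_apply L g v, ac_apply L g u, mul_one]

theorem cc_one (w : FreeGroup X ⧸ L) : cc L g 1 w = 1 := by simp [cc]

theorem cc_of (x : X) (w : FreeGroup X ⧸ L) : cc L g (of x) w = g x w := by simp [cc, ac, pm]

theorem cc_inv (u : FreeGroup X) (w : FreeGroup X ⧸ L) : cc L g u⁻¹ (u • w) = (cc L g u w)⁻¹ := by
  have h1 := cc_mul L g u⁻¹ u w
  rw [inv_mul_cancel, cc_one] at h1
  exact eq_inv_of_mul_eq_one_left h1.symm

theorem cc_rr (hg : ∀ x w, gm L x w = 1 → g x w = 1) (w : FreeGroup X ⧸ L) : cc L g (rr L w) (om0 L) = 1 := by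
  induction w using tree_induction L with
  | h0 => rw [rr_om0, cc_one]
  | h1 p w ih h =>
    rw [h, cc_mul, ih, rr_smul, mul_one]
    obtain ⟨x, e⟩ := p
    cases e with
    | true =>
      have h2 : ltr (x, true) = of x := if_pos rfl
      rw [h2] at h ⊢
      rw [cc_of]
      apply hg
      rw [gm, h]
      group
    | false =>
      have h2 : ltr (x, false) = (of x)⁻¹ := if_neg Bool.false_ne_true
      rw [h2] at h ⊢
      have h3 : w = of x • ((of x)⁻¹ • w) := by rw [smul_inv_smul]
      have h4 : cc L g (of x)⁻¹ w = (g x ((of x)⁻¹ • w))⁻¹ := by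
        conv_lhs => rw [h3]
        rw [cc_inv, cc_of]
      rw [h4, inv_eq_one]
      apply hg
      rw [gm, smul_inv_smul, h]
      group

/-- the restriction of the cocycle to the subgroup -/
noncomputable def bk : L →* G where
  toFun u := cc L g u (om0 L)
  map_one' := cc_one L g _
  map_mul' u v := by
    rw [Subgroup.coe_mul, cc_mul, (smul_om0_eq L _).2 v.2]

theorem bk_gm (hg : ∀ x w, gm L x w = 1 → g x w = 1) (x : X) (w : FreeGroup X ⧸ L) :
    bk L g ⟨gm L x w, gm_mem L x w⟩ = g x w := by
  change cc L g (gm L x w) (om0 L) = g x w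
  have h1 := cc_inv L g (rr L (of x • w)) (om0 L)
  rw [rr_smul] at h1
  rw [gm, cc_mul, cc_mul, rr_smul, h1, cc_rr L g hg, cc_rr L g hg, cc_of, inv_one, one_mul, mul_one]

end Coc

/-- the index set of the basis -/
def Eg : Type := {p : X × (FreeGroup X ⧸ L) // gm L p.1 p.2 ≠ 1}

open Classical in
/-- the letters of the basis -/
noncomputable def gg (x : X) (w : FreeGroup X ⧸ L) : FreeGroup (Eg L) :=
  if h : gm L x w ≠ 1 then of ⟨(x, w), h⟩ else 1

/-- the homomorphism from the free group -/
noncomputable def fw : FreeGroup (Eg L) →* L := FreeGroup.lift fun e => ⟨gm L e.1.1 e.1.2, gm_mem L _ _⟩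

theorem fw_gg (x : X) (w : FreeGroup X ⧸ L) : (fw L (gg L x w) : FreeGroup X) = gm L x w := by
  rw [gg]
  split_ifs with h
  · rw [fw, FreeGroup.lift_apply_of]
  · rw [map_one]
    exact (not_not.1 h).symm

theorem fw_cc (u : FreeGroup X) (w : FreeGroup X ⧸ L) :
    (fw L (cc L (gg L) u w) : FreeGroup X) = (rr L (u • w))⁻¹ * u * rr L w := by
  induction u using FreeGroup.induction_on generalizing w with
  | C1 => simp [cc_one]
  | of x => rw [cc_of, fw_gg, gm]
  | inv_of x _ =>
    have h3 : w = of x • ((of x)⁻¹ • w) := by rw [smul_inv_smul]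
    have h4 : cc L (gg L) (of x)⁻¹ w = (gg L x ((of x)⁻¹ • w))⁻¹ := by
      conv_lhs => rw [h3]
      rw [cc_inv, cc_of]
    rw [h4, map_inv, Subgroup.coe_inv, fw_gg, gm, smul_inv_smul]
    group
  | mul x y hx hy =>
    rw [cc_mul, map_mul, Subgroup.coe_mul, hx, hy, mul_smul]
    group

/-- the Schreier basis -/
noncomputable def sch : FreeGroup (Eg L) ≃* L :=
  MonoidHom.toMulEquiv (fw L) (bk L (gg L))
    (FreeGroup.ext_hom _ _ fun e => by
      change bk L (gg L) (fw L (of e)) = of e
      rw [fw, FreeGroup.lift_apply_of, bk_gm L (gg L) (fun x w h => dif_neg (not_not.2 h)), gg]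
      exact dif_pos e.2)
    (MonoidHom.ext fun u => Subtype.ext (by
      change (fw L (cc L (gg L) u (om0 L)) : FreeGroup X) = u
      rw [fw_cc, (smul_om0_eq L _).2 u.2, rr_om0]
      simp))

/-- a basis which contains the letters in the subgroup -/
theorem exists_basis : ∃ (E : Type) (e : FreeGroup E ≃* L), ∀ x : X, of x ∈ L →
    ∃ i : E, (e (of i) : FreeGroup X) = of x := by
  refine ⟨Eg L, sch L, fun x hx => ?_⟩
  have h1 : gm L x (om0 L) = of x := by
    rw [gm, (smul_om0_eq L _).2 hx, rr_om0]
    simp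
  have h2 : gm L x (om0 L) ≠ 1 := by
    rw [h1]
    exact FreeGroup.of_ne_one x
  refine ⟨⟨(x, om0 L), h2⟩, ?_⟩
  change (fw L (of ⟨(x, om0 L), h2⟩) : FreeGroup X) = of x
  rw [fw, FreeGroup.lift_apply_of]
  exact h1

end Pool.Agent.H98.DF
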