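import Pool.Agent.H98.FJ.P.Ext

/-!
# Homomorphisms from semidirect products

`liftZ`: homomorphisms from `F ⋊ ℤ`. `QQ T D`: the semidirect product of the free group on `T × P ⧸ D` and `P`, `P` acting by
translations; `liftQ`: the homomorphisms from it.
-/

set_option autoImplicit false

namespace Pool.Agent.H98.DF

open FreeGroup (of)
open Pool.Agent.H98.FJ

section Z

variable {F H : Type} [Group F] [Group H]

private theorem compat_nat (fn : F →* H) (φ : MulAut F) (g : H)
    (h : ∀ x, fn (φ x) = g * fn x * g⁻¹) (n : ℕ) : ∀ x, fn ((φ ^ n) x) = g ^ n * fn x * (g ^ n)⁻¹ := by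
  induction n with
  | zero => intro x; simp
  | succ n ih =>
    intro x
    rw [pow_succ, MulAut.mul_apply, ih, h, pow_succ]
    group

private theorem compat (fn : F →* H) (φ : MulAut F) (g : H)
    (h : ∀ x, fn (φ x) = g * fn x * g⁻¹) (n : ℤ) (x : F) : fn ((φ ^ n) x) = g ^ n * fn x * (g ^ n)⁻¹ := by
  have h' : ∀ x, fn (φ⁻¹ x) = g⁻¹ * fn x * g⁻¹⁻¹ := by
    intro x
    have h1 := h (φ⁻¹ x)
    rw [MulAut.apply_inv_self] at h1
    rw [h1]
    group
  obtain ⟨m, rfl | rfl⟩ := n.eq_nat_or_neg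
  · rw [zpow_natCast, zpow_natCast]
    exact compat_nat fn φ g h m x
  · have h2 := compat_nat fn φ⁻¹ g⁻¹ h' m x
    rw [inv_pow, inv_pow] at h2
    rw [zpow_neg, zpow_neg, zpow_natCast, zpow_natCast]
    exact h2

/-- the mapping torus -/
abbrev MT (φ : MulAut F) : Type := F ⋊[zpowersHom _ φ] Multiplicative ℤ

/-- the stable letter -/
def ta (φ : MulAut F) : MT φ := SemidirectProduct.inr (Multiplicative.ofAdd 1)

/-- the base -/
def ba (φ : MulAut F) : F →* MT φ := SemidirectProduct.inl

theorem ba_inj (φ : MulAut F) : Function.Injective (ba φ) := SemidirectProduct.inl_injective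

theorem ta_ba (φ : MulAut F) (x : F) : ta φ * ba φ x = ba φ (φ x) * ta φ := by
  have h1 := SemidirectProduct.inl_aut (φ := zpowersHom (MulAut F) φ) (Multiplicative.ofAdd 1) x
  have h2 : zpowersHom (MulAut F) φ (Multiplicative.ofAdd 1) = φ := by simp
  rw [h2, map_inv, eq_mul_inv_iff_mul_eq] at h1
  exact h1.symm

/-- homomorphisms from the mapping torus -/
def liftZ {φ : MulAut F} (fn : F →* H) (g : H) (h : ∀ x, fn (φ x) = g * fn x * g⁻¹) : MT φ →* H :=
  SemidirectProduct.lift fn (zpowersHom H g) fun n => MonoidHom.ext fun x =>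
    compat fn φ g h (Multiplicative.toAdd n) x

@[simp]
theorem liftZ_ba {φ : MulAut F} (fn : F →* H) (g : H) (h : ∀ x, fn (φ x) = g * fn x * g⁻¹) (x : F) :
    liftZ fn g h (ba φ x) = fn x := SemidirectProduct.lift_inl _ _ _ _

@[simp]
theorem liftZ_ta {φ : MulAut F} (fn : F →* H) (g : H) (h : ∀ x, fn (φ x) = g * fn x * g⁻¹) :
    liftZ fn g h (ta φ) = g := by
  rw [liftZ, ta, SemidirectProduct.lift_inr]
  simp

theorem mt_ext {φ : MulAut F} {f g : MT φ →* H} (h1 : ∀ x, f (ba φ x) = g (ba φ x)) (h2 : f (ta φ) = g (ta φ)) :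
    f = g := by
  refine SemidirectProduct.hom_ext (MonoidHom.ext h1) ?_
  refine MonoidHom.ext_mint ?_
  exact h2

/-- a mapping torus of an isomorphic group -/
theorem mt_congr {C : (G : Type) → [Group G] → Prop} (hC : Inherits C) {F' : Type} [Group F'] (e : F ≃* F')
    (φ : MulAut F) (h : C (MT ((e.symm.trans φ).trans e : MulAut F'))) : C (MT φ) := by
  let φ' : MulAut F' := (e.symm.trans φ).trans e
  let a : MT φ →* MT φ' := liftZ ((ba φ').comp e.toMonoidHom) (ta φ') fun x => by
    have h1 := ta_ba φ' (e x)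
    have h2 : φ' (e x) = e (φ x) := by simp [φ']
    rw [h2] at h1
    rw [eq_mul_inv_iff_mul_eq]
    exact h1.symm
  let b : MT φ' →* MT φ := liftZ ((ba φ).comp e.symm.toMonoidHom) (ta φ) fun x => by
    have h1 := ta_ba φ (e.symm x)
    have h2 : e.symm (φ' x) = φ (e.symm x) := by simp [φ']
    rw [eq_mul_inv_iff_mul_eq]
    change ba φ (e.symm (φ' x)) * ta φ = ta φ * ba φ (e.symm x)
    rw [h2]
    exact h1.symm
  have h1 : b.comp a = MonoidHom.id _ := by
    refine mt_ext (fun x => ?_) ?_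
    · change b (a (ba φ x)) = ba φ x
      rw [liftZ_ba]
      change b (ba φ' (e x)) = ba φ x
      rw [liftZ_ba]
      change ba φ (e.symm (e x)) = ba φ x
      rw [e.symm_apply_apply]
    · change b (a (ta φ)) = ta φ
      rw [liftZ_ta, liftZ_ta]
  refine hC.of_injective a ?_ h
  intro x y hxy
  have h2 := congrArg b hxy
  have h3 : ∀ z, b (a z) = z := fun z => DFunLike.congr_fun h1 z
  rwa [h3, h3] at h2

end Z

section Q

variable {P : Type} [Group P] (T : Type) (D : Subgroup P)

/-- the translations -/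
def sg : P →* Equiv.Perm (T × (P ⧸ D)) where
  toFun p :=
    { toFun := fun q => (q.1, p • q.2)
      invFun := fun q => (q.1, p⁻¹ • q.2)
      left_inv := fun q => by simp
      right_inv := fun q => by simp }
  map_one' := by
    ext q <;> simp
  map_mul' a b := by
    ext q
    · rfl
    · exact mul_smul a b q.2

/-- the semidirect product -/
abbrev QQ : Type := FreeGroup (T × (P ⧸ D)) ⋊[permAct (sg T D)] P

variable {T D}

/-- the letters -/
def le (x : T) (p : P) : QQ T D := SemidirectProduct.inl (of (x, QuotientGroup.mk p))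

/-- the embedding of `P` -/
def iP : P →* QQ T D := SemidirectProduct.inr

variable {H : Type} [Group H]

/-- the conjugates -/
def cj (i : P →* H) (z : H) (hz : ∀ d ∈ D, Commute z (i d)) : P ⧸ D → H :=
  Quotient.lift (fun p : P => i p * z * (i p)⁻¹) fun p q hpq => by
    have h1 : p⁻¹ * q ∈ D := QuotientGroup.leftRel_apply.1 hpq
    have h2 := (hz _ h1).eq
    rw [map_mul, map_inv] at h2
    have h3 : i p * z * (i p)⁻¹ = i p * (z * ((i p)⁻¹ * i q)) * (i q)⁻¹ := by group
    change i p * z * (i p)⁻¹ = i q * z * (i q)⁻¹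
    rw [h3, h2]
    group

theorem cj_mk (i : P →* H) (z : H) (hz : ∀ d ∈ D, Commute z (i d)) (p : P) :
    cj i z hz (QuotientGroup.mk p) = i p * z * (i p)⁻¹ := rfl

theorem cj_smul (i : P →* H) (z : H) (hz : ∀ d ∈ D, Commute z (i d)) (p : P) (c : P ⧸ D) :
    cj i z hz (p • c) = i p * cj i z hz c * (i p)⁻¹ := by
  obtain ⟨q, rfl⟩ := QuotientGroup.mk_surjective c
  have h1 : p • (QuotientGroup.mk q : P ⧸ D) = QuotientGroup.mk (p * q) := rfl
  rw [h1, cj_mk, cj_mk, map_mul]
  group

/-- homomorphisms from the semidirect product -/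
def liftQ (i : P →* H) (z : T → H) (hz : ∀ x, ∀ d ∈ D, Commute (z x) (i d)) : QQ T D →* H :=
  SemidirectProduct.lift (FreeGroup.lift fun q => cj i (z q.1) (hz q.1) q.2) i fun p =>
    FreeGroup.ext_hom _ _ fun q => by
      change (FreeGroup.lift fun q => cj i (z q.1) (hz q.1) q.2) (permAct (sg T D) p (of q)) =
        i p * (FreeGroup.lift fun q => cj i (z q.1) (hz q.1) q.2) (of q) * (i p)⁻¹
      rw [permAct_of, FreeGroup.lift_apply_of, FreeGroup.lift_apply_of]
      exact cj_smul i (z q.1) (hz q.1) p q.2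

theorem liftQ_le (i : P →* H) (z : T → H) (hz : ∀ x, ∀ d ∈ D, Commute (z x) (i d)) (x : T) (p : P) :
    liftQ i z hz (le x p) = i p * z x * (i p)⁻¹ := by
  rw [liftQ, le, SemidirectProduct.lift_inl, FreeGroup.lift_apply_of]
  rfl

theorem liftQ_iP (i : P →* H) (z : T → H) (hz : ∀ x, ∀ d ∈ D, Commute (z x) (i d)) (p : P) :
    liftQ i z hz (iP p) = i p := SemidirectProduct.lift_inr _ _ _ _

/-- the action on the letters -/
theorem iP_le (p q : P) (x : T) : iP p * le x q = le x (p * q) * (iP p : QQ T D) := by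
  have h1 := SemidirectProduct.inl_aut (φ := permAct (sg T D)) p (of (x, QuotientGroup.mk q))
  rw [permAct_of, map_inv, eq_mul_inv_iff_mul_eq] at h1
  exact h1.symm

theorem le_eq {x : T} {p q : P} (h : p⁻¹ * q ∈ D) : (le x p : QQ T D) = le x q := by
  rw [le, le, QuotientGroup.eq.2 h]

theorem qq_mem {C : (G : Type) → [Group G] → Prop} (hC : Inherits C) (hE : Extension C) (hP : C P) : C (QQ T D) :=
  semidirect_mem hC hE (sg T D) hP

end Q

end Pool.Agent.H98.DF
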