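import Pool.Agent.H98.DF.Au
import Pool.Agent.H98.DF.Pe

/-!
# Mapping tori of automorphisms with finite support
-/

set_option autoImplicit false

namespace Pool.Agent.H98.DF

open FreeGroup (of)
open Pool.Agent.H98.FJ

variable {X : Type}

section Ext

variable [DecidableEq X] (Y : Finset X)

/-- the extension by the identity -/
def exH (f : FreeGroup Y →* FreeGroup Y) : FreeGroup X →* FreeGroup X :=
  FreeGroup.lift fun x => if h : x ∈ Y then inc Y (f (of ⟨x, h⟩)) else of x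

theorem exH_mem (f : FreeGroup Y →* FreeGroup Y) {x : X} (h : x ∈ Y) :
    exH Y f (of x) = inc Y (f (of ⟨x, h⟩)) := by
  rw [exH, FreeGroup.lift_apply_of, dif_pos h]

theorem exH_not_mem (f : FreeGroup Y →* FreeGroup Y) {x : X} (h : x ∉ Y) : exH Y f (of x) = of x := by
  rw [exH, FreeGroup.lift_apply_of, dif_neg h]

theorem exH_inc (f : FreeGroup Y →* FreeGroup Y) (w : FreeGroup Y) : exH Y f (inc Y w) = inc Y (f w) := by
  have h1 : (exH Y f).comp (inc Y) = (inc Y).comp f := FreeGroup.ext_hom _ _ fun y => by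
    change exH Y f (inc Y (of y)) = inc Y (f (of y))
    rw [inc_of, exH_mem Y f y.2]
  exact DFunLike.congr_fun h1 w

theorem exH_exH (f g : FreeGroup Y →* FreeGroup Y) (h : ∀ w, f (g w) = w) (w : FreeGroup X) :
    exH Y f (exH Y g w) = w := by
  have h1 : (exH Y f).comp (exH Y g) = MonoidHom.id _ := FreeGroup.ext_hom _ _ fun x => by
    change exH Y f (exH Y g (of x)) = of x
    by_cases hx : x ∈ Y
    · rw [exH_mem Y g hx, exH_inc, h, inc_of]
    · rw [exH_not_mem Y g hx, exH_not_mem Y f hx]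
  exact DFunLike.congr_fun h1 w

/-- the extension of an automorphism -/
def exA (Ψ : MulAut (FreeGroup Y)) : MulAut (FreeGroup X) :=
  MonoidHom.toMulEquiv (exH Y Ψ.toMonoidHom) (exH Y Ψ.symm.toMonoidHom)
    (MonoidHom.ext fun w => exH_exH Y _ _ (fun w => Ψ.symm_apply_apply w) w)
    (MonoidHom.ext fun w => exH_exH Y _ _ (fun w => Ψ.apply_symm_apply w) w)

theorem exA_inc (Ψ : MulAut (FreeGroup Y)) (w : FreeGroup Y) : exA Y Ψ (inc Y w) = inc Y (Ψ w) := exH_inc Y _ w

theorem exA_not_mem (Ψ : MulAut (FreeGroup Y)) {x : X} (h : x ∉ Y) : exA Y Ψ (of x) = of x := exH_not_mem Y _ h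

end Ext

/-- the hypothesis on mapping tori of free groups of finite rank -/
def FinByZ (C : (G : Type) → [Group G] → Prop) : Prop :=
  ∀ (n : ℕ) (φ : MulAut (FreeGroup (Fin n))), C (FreeGroup (Fin n) ⋊[zpowersHom _ φ] Multiplicative ℤ)

variable {C : (G : Type) → [Group G] → Prop} (hC : Inherits C) (hE : Extension C) (hF : FinByZ C)
include hC hE hF

omit hE in
theorem mt_fin (Y : Finset X) (Ψ : MulAut (FreeGroup Y)) : C (MT Ψ) :=
  mt_congr hC (FreeGroup.freeGroupCongr Y.equivFin) Ψ (hF _ _)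

/-- the mapping torus of the extension is in the class -/
theorem mt_ext_mem [DecidableEq X] (Y : Finset X) (Ψ : MulAut (FreeGroup Y)) : C (MT (exA Y Ψ)) := by
  obtain ⟨D, hD⟩ : ∃ D, D = Subgroup.zpowers (ta Ψ) := ⟨_, rfl⟩
  have hQ : C (QQ {x : X // x ∉ Y} D) := qq_mem hC hE (mt_fin hC hF Y Ψ)
  -- the homomorphism to the semidirect product
  let fa : FreeGroup X →* QQ {x : X // x ∉ Y} D :=
    FreeGroup.lift fun x => if h : x ∈ Y then iP (ba Ψ (of ⟨x, h⟩)) else le ⟨x, h⟩ 1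
  have fa1 : ∀ w : FreeGroup Y, fa (inc Y w) = iP (ba Ψ w) := by
    have h1 : fa.comp (inc Y) = (iP : MT Ψ →* QQ {x : X // x ∉ Y} D).comp (ba Ψ) := FreeGroup.ext_hom _ _ fun y => by
      change fa (inc Y (of y)) = iP (ba Ψ (of y))
      rw [inc_of]
      simp only [fa, FreeGroup.lift_apply_of]
      rw [dif_pos y.2]
    exact fun w => DFunLike.congr_fun h1 w
  have fa2 : ∀ x (h : x ∉ Y), fa (of x) = le ⟨x, h⟩ 1 := fun x h => by
    simp only [fa, FreeGroup.lift_apply_of]
    rw [dif_neg h]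
  have fa3 : ∀ w, fa (exA Y Ψ w) = iP (ta Ψ) * fa w * (iP (ta Ψ))⁻¹ := by
    have h1 : fa.comp (exA Y Ψ).toMonoidHom = (MulAut.conj (iP (ta Ψ))).toMonoidHom.comp fa :=
      FreeGroup.ext_hom _ _ fun x => by
        change fa (exA Y Ψ (of x)) = iP (ta Ψ) * fa (of x) * (iP (ta Ψ))⁻¹
        by_cases hx : x ∈ Y
        · have h2 : (of x : FreeGroup X) = inc Y (of ⟨x, hx⟩) := (inc_of Y ⟨x, hx⟩).symm
          rw [h2, exA_inc, fa1, fa1, ← map_mul, ta_ba, map_mul, mul_inv_cancel_right]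
        · rw [exA_not_mem Y Ψ hx, fa2 x hx, iP_le, mul_inv_cancel_right]
          refine le_eq ?_
          rw [inv_one, one_mul, mul_one, hD]
          exact Subgroup.mem_zpowers _
    exact fun w => DFunLike.congr_fun h1 w
  let a : MT (exA Y Ψ) →* QQ {x : X // x ∉ Y} D := liftZ fa (iP (ta Ψ)) fa3
  -- the homomorphism back
  let i : MT Ψ →* MT (exA Y Ψ) := liftZ ((ba _).comp (inc Y)) (ta _) fun w => by
    change ba _ (inc Y (Ψ w)) = ta _ * ba _ (inc Y w) * (ta _)⁻¹
    rw [ta_ba, exA_inc, mul_inv_cancel_right]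
  have hz : ∀ x : {x : X // x ∉ Y}, ∀ d ∈ D, Commute (ba (exA Y Ψ) (of x.1)) (i d) := by
    intro x d hd
    rw [hD] at hd
    obtain ⟨k, rfl⟩ := Subgroup.mem_zpowers_iff.1 hd
    rw [map_zpow, liftZ_ta]
    refine Commute.zpow_right ?_ k
    have h1 := ta_ba (exA Y Ψ) (of x.1)
    rw [exA_not_mem Y Ψ x.2] at h1
    exact h1.symm
  let b : QQ {x : X // x ∉ Y} D →* MT (exA Y Ψ) := liftQ i (fun x => ba _ (of x.1)) hz
  have h1 : b.comp a = MonoidHom.id _ := by
    refine mt_ext (fun w => ?_) ?_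
    · have h2 : (b.comp a).comp (ba _) = ba (exA Y Ψ) := FreeGroup.ext_hom _ _ fun x => by
        change b (a (ba _ (of x))) = ba _ (of x)
        rw [liftZ_ba]
        by_cases hx : x ∈ Y
        · have h2 : (of x : FreeGroup X) = inc Y (of ⟨x, hx⟩) := (inc_of Y ⟨x, hx⟩).symm
          rw [h2, fa1, liftQ_iP, liftZ_ba]
          rfl
        · rw [fa2 x hx, liftQ_le, map_one, one_mul, inv_one, mul_one]
      exact DFunLike.congr_fun h2 w
    · change b (a (ta _)) = ta _
      rw [liftZ_ta, liftQ_iP, liftZ_ta]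
  refine hC.of_injective a ?_ hQ
  intro x y hxy
  have h2 := congrArg b hxy
  have h3 : ∀ z, b (a z) = z := fun z => DFunLike.congr_fun h1 z
  rwa [h3, h3] at h2

end Pool.Agent.H98.DF
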